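import Pool.Agent.Run7.h242.LipSpace

open MeasureTheory
open scoped ENNReal NNReal
open Run7.h242.Lip

namespace Pool.Agent.Results.MP_6e3e44_an.LipschitzInterpolation

/-- For all `1 ≤ β < γ < α < ∞`, `L^γ[0,1]` is a Lipschitz interpolation space with constant `1`
between `L^β[0,1]` and `L^α[0,1]`, even with the Riesz-Thorin constant `M0^(1-θ) * M1^θ`. -/
theorem result (β γ α θ : ℝ) (hβ : 1 ≤ β) (hβγ : β < γ) (hγα : γ < α)
    (hθ : 1 / γ = (1 - θ) / β + θ / α)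
    (U : Lp ℂ (ENNReal.ofReal β) leb → Lp ℂ (ENNReal.ofReal β) leb) (M0 M1 : ℝ≥0)
    (h0 : LipOn U β M0) (h1 : LipOn U α M1) :
    LipOn U γ (M0 ^ (1 - θ) * M1 ^ θ) ∧ LipOn U γ (max M0 M1) := by
  obtain ⟨t0, t1, h⟩ := main hβ hβγ hγα hθ h0 h1
  exact ⟨h, mono h (geom_le_max t0 t1)⟩

end Pool.Agent.Results.MP_6e3e44_an.LipschitzInterpolation
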